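import Pool.Agent.V7H94.Trk.Main

set_option autoImplicit false

/-!
# MP_93c926: the cost of approximate boundary tracking is at most `C exp (C / ε)` (Q1)

The target is mollified by a Gaussian in time of variance of order `ε³`, after a shift by a multiple
of `ε`; the flatness series `∑ x^(2i+1)/(2i+1)! W^(i)(t)` of the mollification is an exact solution of
the heat equation, its size is controlled by Cauchy estimates in discs of radius of order `ε`, and the
small initial state is removed by the heat semigroup on the line.
-/

open Set

namespace Pool.Agent.Results.MP_93c926_an.ExponentialCostH94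

open Pool.Agent.R190.Trk

/-- **Positive answer to Q1 of MP_93c926_an**, with a constant which depends on `L`, `T` and the
Lipschitz constant of the target only: `K_w(ε) ≤ C exp (C / ε)` for all `ε > 0`. -/
theorem result {L T M : ℝ} (hL : 0 < L) (hT : 0 < T) (hM : 0 ≤ M) :
    ∃ C : ℝ, 0 < C ∧ ∀ w : ℝ → ℝ,
      (∀ s ∈ Icc 0 T, ∀ s' ∈ Icc 0 T, |w s - w s'| ≤ M * |s - s'|) → w 0 = 0 →
      ∀ ε : ℝ, 0 < ε → Kw L T w ε ≤ ((C * Real.exp (C / ε) : ℝ) : EReal) :=
  Pool.Agent.V7H94.Trk.main hL hT hM

end Pool.Agent.Results.MP_93c926_an.ExponentialCostH94
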